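import Pool.Agent.Lib.MP_562b47_mp.SR.NumT
import Pool.Agent.Lib.MP_562b47_mp.SR.InstB
import Pool.Agent.Lib.MP_562b47_mp.RD.InstE

/-!
MP_562b47, slabs, the instance: hypotheses of section 5 (`EC.EHyp`) and of the bridge (`LB`):
coupling of the centre at background `a`, diameter, numbers.
-/

open Finset Matrix

set_option linter.unusedSectionVars false

namespace Pool.Agent.Lib.MP_562b47_mp.SR

open Pool.Agent.Lib.MP_562b47_mp.SX Pool.Agent.Lib.MP_562b47_mp.WO Pool.Agent.Lib.MP_562b47_mp.AL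
open Pool.Agent.Lib.MP_562b47_mp.RD (pe le_exp_pow sq_le_pow)

section num

variable {d : ℕ} {c : ℝ} {F : Type} [Fintype F] [DecidableEq F] [Thin F]
  (G : Gd d c F)

/-- error of the complex coupling, at background `a` -/
noncomputable def Gd.er {d : ℕ} {c : ℝ} {F : Type} [Fintype F] [DecidableEq F] [Thin F]
    (G : Gd d c F) (N : ℕ) (a : ℝ) : ℝ :=
  G.al ^ 2 * (2 * a * G.nQ N * G.Rb N ^ 2)

/-- the background `a` is small for the blocks of size `N` -/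
structure Gd.SmE {d : ℕ} {c : ℝ} {F : Type} [Fintype F] [DecidableEq F] [Thin F]
    (G : Gd d c F) (N : ℕ) (a : ℝ) : Prop where
  half : a * G.nQ N * G.Rb N ≤ 1 / 2
  ph : G.nQ N * G.er N a ^ 2 ≤ G.z ^ (2 * N) / G.C
  ze : G.er N a + a ≤ G.gl N / 8

theorem Gd.nQ_ge49 {N : ℕ} (hN : 1 ≤ N) : 49 ≤ G.nQ N := by
  have hb := G.b2_ge
  have hN' : (1 : ℝ) ≤ N := by exact_mod_cast hN
  unfold Gd.nQ
  have h1 : (7 : ℝ) ≤ 2 * (G.b2 : ℝ) * N + 1 := by
    nlinarith [mul_le_mul hb hN' zero_le_one (by linarith : (0 : ℝ) ≤ G.b2)]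
  calc (49 : ℝ) = 7 ^ 2 := by norm_num
    _ ≤ 7 ^ d := pow_le_pow_right₀ (by norm_num) G.hd
    _ ≤ (2 * (G.b2 : ℝ) * N + 1) ^ d := pow_le_pow_left₀ (by norm_num) h1 d

theorem Gd.al_pos (hc : 0 < c) : 0 < G.al := by
  unfold Gd.al
  have := abs_nonneg G.v
  have := G.d_ge
  have := G.f_nonneg
  linarith

/-- all constants of the instance are at most `exp (K N ^ (d + 1))` -/
theorem Gd.exists_K (hc : 0 < c) : ∃ K : ℝ, 0 ≤ K ∧ ∀ N : ℕ, 1 ≤ N →
    G.nQ N ≤ Real.exp (K * (N : ℝ) ^ (d + 1)) ∧ G.Rb N ≤ Real.exp (K * (N : ℝ) ^ (d + 1)) ∧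
    G.al ≤ Real.exp (K * (N : ℝ) ^ (d + 1)) ∧ G.C ≤ Real.exp (K * (N : ℝ) ^ (d + 1)) ∧
    1 / G.z ^ (2 * N) ≤ Real.exp (K * (N : ℝ) ^ (d + 1)) ∧
    1 / G.gl N ≤ Real.exp (K * (N : ℝ) ^ (d + 1)) := by
  have hb := G.b2_ge
  have hC := G.C_pos
  have hal : 0 < G.al := G.al_pos hc
  have hz := G.z_pos
  have hlz : Real.log G.z < 0 := Real.log_neg hz G.z_lt
  have hd0 : (0 : ℝ) ≤ d := Nat.cast_nonneg d
  set X1 : ℝ := (2 * (G.b2 : ℝ) + 1) ^ d with hX1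
  set K : ℝ := (|Real.log X1| + d) + G.C + |Real.log G.al| + |Real.log G.C| +
    2 * (-Real.log G.z) + (|Real.log (G.r * G.C)| + 2 * (-Real.log G.z)) with hK
  have hX1p : 0 < X1 := by positivity
  have hKnn : 0 ≤ K := by
    have := abs_nonneg (Real.log X1)
    have := abs_nonneg (Real.log G.al)
    have := abs_nonneg (Real.log G.C)
    have := abs_nonneg (Real.log (G.r * G.C))
    rw [hK]; linarith
  have a1 := abs_nonneg (Real.log X1)
  have a2 := abs_nonneg (Real.log G.al)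
  have a3 := abs_nonneg (Real.log G.C)
  have a4 := abs_nonneg (Real.log (G.r * G.C))
  refine ⟨K, hKnn, fun N hN => ?_⟩
  have hN1 : (1 : ℝ) ≤ N := by exact_mod_cast hN
  have hN3 : (1 : ℝ) ≤ (N : ℝ) ^ (d + 1) := one_le_pow₀ hN1
  have hNN : (N : ℝ) ≤ (N : ℝ) ^ (d + 1) := le_self_pow₀ hN1 (by omega)
  have hmono : ∀ {k : ℝ}, k ≤ K →
      Real.exp (k * (N : ℝ) ^ (d + 1)) ≤ Real.exp (K * (N : ℝ) ^ (d + 1)) := by
    intro k hk
    apply Real.exp_le_exp.mpr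
    exact mul_le_mul_of_nonneg_right hk (by positivity)
  refine ⟨?_, ?_, ?_, ?_, ?_, ?_⟩
  · -- nQ
    have e1 : G.nQ N ≤ X1 * Real.exp (d * (N : ℝ) ^ (d + 1)) := by
      refine (G.nQ_le_exp N hN).trans ?_
      gcongr
    have e5 : X1 ≤ Real.exp (|Real.log X1| * (N : ℝ) ^ (d + 1)) := le_exp_pow hX1p le_rfl hN _
    calc G.nQ N ≤ X1 * Real.exp (d * (N : ℝ) ^ (d + 1)) := e1
      _ ≤ Real.exp (|Real.log X1| * (N : ℝ) ^ (d + 1)) * Real.exp (d * (N : ℝ) ^ (d + 1)) := by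
          gcongr
      _ = Real.exp ((|Real.log X1| + d) * (N : ℝ) ^ (d + 1)) := by rw [← Real.exp_add]; ring_nf
      _ ≤ _ := hmono (by rw [hK]; linarith)
  · unfold Gd.Rb
    exact hmono (by rw [hK]; linarith)
  · exact (le_exp_pow hal le_rfl hN _).trans (hmono (by rw [hK]; linarith))
  · exact (le_exp_pow hC le_rfl hN _).trans (hmono (by rw [hK]; linarith))
  · have e1 : 1 / G.z ^ (2 * N) = Real.exp (2 * (N : ℝ) * (-Real.log G.z)) := by
      have e2 : G.z ^ (2 * N) = Real.exp (2 * (N : ℝ) * Real.log G.z) := by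
        rw [← Real.exp_log (pow_pos hz (2 * N)), Real.log_pow]
        push_cast
        ring_nf
      rw [e2, one_div, ← Real.exp_neg]
      ring_nf
    rw [e1]
    refine le_trans (Real.exp_le_exp.mpr ?_) (hmono (k := 2 * (-Real.log G.z)) (by rw [hK]; linarith))
    nlinarith
  · refine (G.one_div_gl N).trans ?_
    have e5 : G.r * G.C ≤ Real.exp (|Real.log (G.r * G.C)| * (N : ℝ) ^ (d + 1)) :=
      le_exp_pow (mul_pos G.r_pos hC) le_rfl hN _
    calc G.r * G.C * Real.exp (2 * (N : ℝ) * (-Real.log G.z))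
        ≤ Real.exp (|Real.log (G.r * G.C)| * (N : ℝ) ^ (d + 1)) *
          Real.exp (2 * (-Real.log G.z) * (N : ℝ) ^ (d + 1)) := by
          refine mul_le_mul e5 (Real.exp_le_exp.mpr ?_) (Real.exp_pos _).le (Real.exp_pos _).le
          nlinarith
      _ = Real.exp ((|Real.log (G.r * G.C)| + 2 * (-Real.log G.z)) * (N : ℝ) ^ (d + 1)) := by
          rw [← Real.exp_add]; ring_nf
      _ ≤ _ := hmono (by rw [hK]; linarith)

/-- `a ≤ exp (- N ^ pe d)` is small enough -/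
theorem Gd.exists_SmE (hc : 0 < c) : ∃ N1 : ℕ, 1 ≤ N1 ∧ ∀ N : ℕ, N1 ≤ N → ∀ a : ℝ, 0 < a →
    a ≤ Real.exp (-((N : ℝ) ^ pe d)) → G.SmE N a := by
  obtain ⟨K, hK0, hK⟩ := G.exists_K hc
  obtain ⟨N1, h1, h2⟩ := BR.exp_beats (24 + 13 * K) 1 one_pos (k := d + 1) (l := pe d)
    (by unfold pe; omega) (ε := 1) one_pos
  obtain ⟨N2, h3, h4⟩ := G.exists_et
  refine ⟨max N1 N2, h1.trans (le_max_left _ _), fun N hN a ha haN => ?_⟩
  have hN1 : 1 ≤ N := (h1.trans (le_max_left _ _)).trans hN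
  obtain ⟨k1, k2, k3, k4, k5, k6⟩ := hK N hN1
  have h5 := h2 N ((le_max_left _ _).trans hN)
  have h6 := h4 N ((le_max_right _ _).trans hN)
  rw [one_mul] at h5
  set e := Real.exp (K * (N : ℝ) ^ (d + 1)) with he
  set η := Real.exp (-((N : ℝ) ^ pe d)) with hη
  have he0 : 0 < e := Real.exp_pos _
  have he1 : 1 ≤ e := Real.one_le_exp (by positivity)
  have hη0 : 0 < η := Real.exp_pos _
  have hη1 : η ≤ 1 := Real.exp_le_one_iff.mpr (by
    have : (0 : ℝ) ≤ (N : ℝ) ^ pe d := by positivity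
    linarith)
  have hn0 := G.nQ_nonneg N
  have hR0 := G.Rb_nonneg N
  have hC := G.C_pos
  have hal0 : 0 ≤ G.al := (G.al_pos hc).le
  -- the main numerical inequality
  have hbig : 24 * e ^ 13 * η ≤ 1 := by
    have e1 : e ^ 13 = Real.exp (13 * K * (N : ℝ) ^ (d + 1)) := by
      rw [he, ← Real.exp_nat_mul]; push_cast; ring_nf
    have e2 : e ^ 13 ≤ Real.exp ((24 + 13 * K) * (N : ℝ) ^ (d + 1)) := by
      rw [e1]
      apply Real.exp_le_exp.mpr
      have : (0 : ℝ) ≤ (N : ℝ) ^ (d + 1) := by positivity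
      nlinarith
    calc 24 * e ^ 13 * η ≤ (24 + 13 * K) * Real.exp ((24 + 13 * K) * (N : ℝ) ^ (d + 1)) * η := by
          gcongr
          linarith
      _ ≤ 1 := h5
  have her : G.er N a ≤ 2 * e ^ 5 * a := by
    unfold Gd.er
    calc G.al ^ 2 * (2 * a * G.nQ N * G.Rb N ^ 2) ≤ e ^ 2 * (2 * a * e * e ^ 2) := by gcongr
      _ = 2 * e ^ 5 * a := by ring
  have her0 : 0 ≤ G.er N a := by
    unfold Gd.er; positivity
  refine ⟨?_, ?_, ?_⟩
  · exact le_trans (by gcongr) h6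
  · have hz := G.z_pos
    have hzN : 0 < G.z ^ (2 * N) := by positivity
    have g1 : G.nQ N * G.er N a ^ 2 ≤ e * (2 * e ^ 5 * a) ^ 2 := by gcongr
    have g2 : e * (2 * e ^ 5 * a) ^ 2 ≤ 4 * e ^ 11 * η := by
      calc e * (2 * e ^ 5 * a) ^ 2 = 4 * e ^ 11 * (a * a) := by ring
        _ ≤ 4 * e ^ 11 * (η * 1) := by
            have : a ≤ 1 := haN.trans hη1
            gcongr
        _ = 4 * e ^ 11 * η := by ring
    have g3 : e⁻¹ * e⁻¹ ≤ G.z ^ (2 * N) / G.C := by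
      rw [div_eq_mul_inv]
      have g4 : e⁻¹ ≤ G.z ^ (2 * N) := by
        rw [inv_le_comm₀ he0 hzN]
        rw [one_div] at k5
        exact k5
      have g5 : e⁻¹ ≤ G.C⁻¹ := inv_anti₀ hC k4
      exact mul_le_mul g4 g5 (by positivity) hzN.le
    refine (g1.trans g2).trans (le_trans ?_ g3)
    rw [← mul_inv, ← one_div, le_div_iff₀ (by positivity)]
    calc 4 * e ^ 11 * η * (e * e) = 4 * e ^ 13 * η := by ring
      _ ≤ 24 * e ^ 13 * η := by gcongr; norm_num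
      _ ≤ 1 := hbig
  · have g1 : e⁻¹ ≤ G.gl N := by
      have := G.gl_pos N
      rw [inv_le_comm₀ he0 this]
      rw [one_div] at k6
      exact k6
    have g2 : G.er N a + a ≤ 3 * e ^ 5 * η := by
      have : a ≤ e ^ 5 * a := by
        have : 1 ≤ e ^ 5 := one_le_pow₀ he1
        nlinarith
      calc G.er N a + a ≤ 2 * e ^ 5 * a + e ^ 5 * a := add_le_add her this
        _ = 3 * e ^ 5 * a := by ring
        _ ≤ 3 * e ^ 5 * η := by gcongr
    have g3 : 3 * e ^ 5 * η ≤ e⁻¹ / 8 := by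
      rw [le_div_iff₀ (by norm_num), ← one_div, le_div_iff₀ he0]
      calc 3 * e ^ 5 * η * 8 * e = 24 * e ^ 6 * η := by ring
        _ ≤ 24 * e ^ 13 * η := by
            have : e ^ 6 ≤ e ^ 13 := pow_le_pow_right₀ he1 (by norm_num)
            gcongr
        _ ≤ 1 := hbig
    linarith

theorem Gd.SmE.sm {G : Gd d c F} {N : ℕ} {a : ℝ} (h : G.SmE N a) : G.Sm N a := ⟨h.half, h.ph⟩

end num

namespace Par

variable {d : ℕ} {c : ℝ} {F : Type} [Fintype F] [DecidableEq F] [Thin F] {ι : Type*} [Fintype ι]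
  [DecidableEq ι] (P : Par d c F ι)

theorem sepw' (hN : 2 ≤ P.N0) (q : P.Blk) :
    ∀ y, y ∉ P.sys.inn q → y ≠ P.sys.w q → P.A (P.sys.w q) y = 0 := by
  intro y hy hyw
  by_contra hA
  have h1 : adj (P.pos (P.ctr q)) (P.pos y) := P.adj_of (Ne.symm hyw) hA
  have h2 : y ∈ P.sys.qi q := P.near_ctr hN fun j => (adj_dist h1 j).trans (by norm_num)
  apply hy
  rw [P.sys.mem_inn]
  exact ⟨hyw, (P.sys.mem_qi).mp h2⟩

theorem diam' (q : P.Blk) {x : ι} (hx : x ∈ P.sys.Q q) :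
    ff P.xi x (P.sys.w q) ≤ P.G.nQ (P.num q) := by
  have hw : P.sys.w q = P.ctr q := rfl
  have hb1 := RD.mem_bq.mp (mem_bq.mp (P.mem_Q.mp hx))
  have hr := P.rad_ge q
  have hrr : ((P.rad q : ℤ) : ℝ) = P.G.b * (P.num q : ℝ) := P.rad_cast q
  have key : ∀ j, (((P.pos x).1 j : ℝ) - (P.pos (P.ctr q)).1 j) ^ 2 ≤
      (((P.rad q : ℤ) : ℝ) + 1) ^ 2 := by
    intro j
    have h1 := hb1 j
    simp only [co, rel, RD.rel] at h1
    have h3 : -(P.rad q + 1) ≤ (P.pos x).1 j - (P.pos (P.ctr q)).1 j ∧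
        (P.pos x).1 j - (P.pos (P.ctr q)).1 j ≤ P.rad q + 1 := by
      omega
    have h5 : -(((P.rad q : ℤ) : ℝ) + 1) ≤ ((P.pos x).1 j : ℝ) - (P.pos (P.ctr q)).1 j := by
      exact_mod_cast h3.1
    have h6 : ((P.pos x).1 j : ℝ) - (P.pos (P.ctr q)).1 j ≤ ((P.rad q : ℤ) : ℝ) + 1 := by
      exact_mod_cast h3.2
    exact sq_le_sq' h5 h6
  have h7 : (1 : ℝ) ≤ ((P.rad q : ℤ) : ℝ) := by exact_mod_cast (by omega : (1 : ℤ) ≤ P.rad q)
  have h8 := P.nQ_vol q h7 (le_of_eq hrr)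
  have h9 : (2 * ((P.rad q : ℤ) : ℝ) + 1) ^ d ≤
      (2 * ((P.rad q : ℤ) : ℝ) + 1) ^ d * Fintype.card F :=
    le_mul_of_one_le_right (by positivity) P.G.f_ge
  have h10 := sq_le_pow P.G.hd h7
  have h11 : ∑ j, (((P.pos x).1 j : ℝ) - (P.pos (P.ctr q)).1 j) ^ 2 ≤
      d * (((P.rad q : ℤ) : ℝ) + 1) ^ 2 := by
    refine (Finset.sum_le_sum fun j _ => key j).trans (le_of_eq ?_)
    rw [Finset.sum_const, Finset.card_univ, Fintype.card_fin, nsmul_eq_mul]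
  rw [hw]
  have h12 := P.ff_le_long x (P.ctr q)
  linarith

theorem card_inn_le (q : P.Blk) : ((P.sys.inn q).card : ℝ) ≤ P.G.nQ (P.num q) := by
  linarith [P.card_inn q]

theorem card_L_le (q : P.Blk) : ((P.sys.L q).card : ℝ) ≤ P.G.nQ (P.num q) := P.card_L q

theorem er_ge (q : P.Blk) {a : ℝ} (ha : 0 < a) :
    P.G.al ^ 2 * (2 * a * ((P.sys.inn q).card : ℝ) * P.G.Rb (P.num q) ^ 2) ≤
      P.G.er (P.num q) a := by
  unfold Gd.er
  have := P.card_inn_le q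
  have := P.G.Rb_nonneg (P.num q)
  gcongr

theorem half' (q : P.Blk) {a : ℝ} (ha : 0 < a) (hsm : P.G.SmE (P.num q) a) :
    a * ((P.sys.inn q).card : ℝ) * P.G.Rb (P.num q) ≤ 1 / 2 := by
  refine le_trans ?_ hsm.half
  have := P.card_inn_le q
  have := P.G.Rb_nonneg (P.num q)
  gcongr

/-- the coupling, sum over the port sites -/
theorem phc_sum (hS : WO.Good P.sys P.A) (q : P.Blk) {V : ι → ℝ} (hb : P.sys.comp q V) {a : ℝ}
    (ha : 0 < a) (hsm : P.G.SmE (P.num q) a) :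
    ∑ l ∈ P.sys.L q, ‖EC.phc P.A (P.sys.inn q) (P.sys.w q)
      (fun x => (V x : ℂ) - (a : ℂ) * Complex.I) l‖ ^ 2 ≤
      2 * P.sys.gg P.A q V * P.sys.lw (P.sys.cls q) := by
  refine EC.phc_le (R := P.G.Rb (P.num q)) (α := P.G.al) hS hb ha (fun x y => P.RS_le hb x y)
    (P.half' q ha hsm) P.row ?_
  refine le_trans ?_ (hsm.ph.trans (P.sum_ph_ge hb))
  have h1 := P.card_L_le q
  have h0 := P.G.nQ_nonneg (P.num q)
  have h2 := P.er_ge q ha
  have h3 : 0 ≤ P.G.al ^ 2 * (2 * a * ((P.sys.inn q).card : ℝ) * P.G.Rb (P.num q) ^ 2) := by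
    positivity
  gcongr

/-- the coupling, one port site -/
theorem phc_one (hS : WO.Good P.sys P.A) (q : P.Blk) {V : ι → ℝ} (hb : P.sys.comp q V) {a : ℝ}
    (ha : 0 < a) (hsm : P.G.SmE (P.num q) a) {l : ι} (hl : l ∈ P.sys.L q) :
    ‖EC.phc P.A (P.sys.inn q) (P.sys.w q) (fun x => (V x : ℂ) - (a : ℂ) * Complex.I) l‖ ^ 2 ≤
      P.sys.gg P.A q V * P.sys.lw (P.sys.cls q) := by
  refine EC.phc_one_le (R := P.G.Rb (P.num q)) (α := P.G.al) hS hb ha (fun x y => P.RS_le hb x y)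
    (P.half' q ha hsm) P.row ?_ hl
  refine le_trans ?_ (hsm.ph.trans (P.sum_ph_ge hb))
  have h2 := P.er_ge q ha
  have h3 : 0 ≤ P.G.al ^ 2 * (2 * a * ((P.sys.inn q).card : ℝ) * P.G.Rb (P.num q) ^ 2) := by
    positivity
  have h4 := P.G.nQ_ge49 (P.one_le_num q)
  have h5 : (6 : ℝ) ≤ P.G.nQ (P.num q) := by linarith
  gcongr

/-- the self energy at background `a` -/
theorem zec_le (hS : WO.Good P.sys P.A) (q : P.Blk) {V : ι → ℝ} (hb : P.sys.comp q V) {a : ℝ}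
    (ha : 0 < a) (hsm : P.G.SmE (P.num q) a) :
    ‖EC.zec P.A (P.sys.inn q) (P.sys.w q) (fun x => (V x : ℂ) - (a : ℂ) * Complex.I) -
      (P.sys.ze P.A q V : ℂ)‖ + a ≤ P.sys.gg P.A q V / 8 := by
  have h1 := EC.zec_sub_le (R := P.G.Rb (P.num q)) (α := P.G.al) hS hb ha
    (fun x y => P.RS_le hb x y) (P.half' q ha hsm) P.row
  have h2 := P.er_ge q ha
  have h3 := hsm.ze
  have h4 : P.G.gl (P.num q) ≤ P.sys.gg P.A q V := P.gg_ge hb
  have h5 : ‖EC.zec P.A (P.sys.inn q) (P.sys.w q) (fun x => (V x : ℂ) - (a : ℂ) * Complex.I) -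
      (P.sys.ze P.A q V : ℂ)‖ ≤ P.G.er (P.num q) a := h1.trans h2
  linarith

/-- the hypotheses of section 5 -/
theorem ehyp (hN : 2 ≤ P.N0) (hS : WO.Good P.sys P.A) (m : ℕ) {a : ℝ} (ha : 0 < a)
    (hsm : P.G.SmE (P.N0 + m) a) :
    EC.EHyp P.sys P.A P.xi m a (P.G.nQ (P.N0 + m)) where
  sepw := fun q _ => P.sepw' hN q
  phc := by
    intro q V hq hb
    have hn : P.num q = P.N0 + m := by
      unfold num
      have : P.cls q = m := hq
      rw [this]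
    have h1 := P.phc_sum hS q hb ha (by rw [hn]; exact hsm)
    rw [hq] at h1
    exact h1
  diam := by
    intro q hq x hx
    have hn : P.num q = P.N0 + m := by
      unfold num
      have : P.cls q = m := hq
      rw [this]
    rw [← hn]
    exact P.diam' q hx
  dm_nonneg := P.G.nQ_nonneg _

end Par

end Pool.Agent.Lib.MP_562b47_mp.SR
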