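import Pool.Agent.Lib.MP_562b47_mp.SR.InstE
import Pool.Agent.Lib.MP_562b47_mp.RD.InstL
import Pool.Agent.Lib.MP_562b47_mp.LB.Main

/-!
MP_562b47, slabs, the instance: the bridge (thinning errors) for `Par.sys`.
-/

open Finset Matrix MeasureTheory

set_option linter.unusedSectionVars false

namespace Pool.Agent.Lib.MP_562b47_mp.SR

open Pool.Agent.Lib.MP_562b47_mp.SX Pool.Agent.Lib.MP_562b47_mp.WO Pool.Agent.Lib.MP_562b47_mp.AL
open Pool.Agent.Lib.MP_562b47_mp.RD (pe lw lw_pos poly_geom)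

section num

variable {d : ℕ} {c : ℝ} {F : Type} [Fintype F] [DecidableEq F] [Thin F]

/-- `nQ` as a natural number -/
def Gd.nn (G : Gd d c F) (N : ℕ) : ℕ := (2 * G.b2.toNat * N + 1) ^ d

theorem Gd.nn_cast (G : Gd d c F) (N : ℕ) : ((G.nn N : ℕ) : ℝ) = G.nQ N := by
  unfold Gd.nn Gd.nQ
  have hb : (3 : ℤ) ≤ G.b2 := by exact_mod_cast G.b2_ge
  have h1 : ((G.b2.toNat : ℕ) : ℝ) = (G.b2 : ℝ) := by
    have : ((G.b2.toNat : ℕ) : ℤ) = G.b2 := Int.toNat_of_nonneg (by omega)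
    exact_mod_cast this
  push_cast
  rw [h1]

/-- upper bound of the strength of the absorbers -/
noncomputable def Gd.gu {d : ℕ} {c : ℝ} {F : Type} [Fintype F] [DecidableEq F] [Thin F]
    (G : Gd d c F) (N : ℕ) : ℝ :=
  2 / lw (KK d F) G.r N * (G.C * (N : ℝ) ^ d * G.z ^ (2 * N))

theorem Gd.gu_nonneg (G : Gd d c F) (N : ℕ) : 0 ≤ G.gu N := by
  unfold Gd.gu
  have := lw_pos (KK_pos d F) G.r_pos N
  have := G.C_pos
  have := G.z_pos
  positivity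

theorem Gd.gu_le (G : Gd d c F) {N : ℕ} (hN : 1 ≤ N) :
    G.gu N ≤ 12 * KK d F * G.C / G.r * ((N : ℝ) ^ (d + 2) * (G.z ^ 2) ^ N) := by
  have hN1 : (1 : ℝ) ≤ N := by exact_mod_cast hN
  have hK : (0 : ℝ) < KK d F := by exact_mod_cast KK_pos d F
  have hr := G.r_pos
  have hC := G.C_pos
  have hz := G.z_pos
  have h4 : 2 / lw (KK d F) G.r N = 2 * KK d F * (((N : ℝ) + 1) * (N + 2)) / G.r := by
    unfold lw
    field_simp
  have hNd : (0 : ℝ) ≤ (N : ℝ) ^ d := by positivity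
  have h5 : ((N : ℝ) + 1) * (N + 2) * (N : ℝ) ^ d ≤ 6 * (N : ℝ) ^ (d + 2) := by
    have h51 : ((N : ℝ) + 1) * (N + 2) ≤ 6 * (N : ℝ) ^ 2 := by nlinarith
    calc ((N : ℝ) + 1) * (N + 2) * (N : ℝ) ^ d ≤ 6 * (N : ℝ) ^ 2 * (N : ℝ) ^ d :=
          mul_le_mul_of_nonneg_right h51 hNd
      _ = 6 * (N : ℝ) ^ (d + 2) := by ring
  unfold Gd.gu
  rw [h4, pow_mul]
  have h7 : 0 < (G.z ^ 2) ^ N := by positivity
  calc 2 * KK d F * (((N : ℝ) + 1) * (N + 2)) / G.r * (G.C * (N : ℝ) ^ d * (G.z ^ 2) ^ N)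
      = 2 * KK d F * G.C / G.r * ((((N : ℝ) + 1) * (N + 2) * (N : ℝ) ^ d) * (G.z ^ 2) ^ N) := by ring
    _ ≤ 2 * KK d F * G.C / G.r * ((6 * (N : ℝ) ^ (d + 2)) * (G.z ^ 2) ^ N) := by gcongr
    _ = 12 * KK d F * G.C / G.r * ((N : ℝ) ^ (d + 2) * (G.z ^ 2) ^ N) := by ring

/-- `nQ` against powers -/
theorem Gd.nQ_le (G : Gd d c F) {N : ℕ} (hN : 1 ≤ N) :
    G.nQ N ≤ (2 * (G.b2 : ℝ) + 1) ^ d * (N : ℝ) ^ d := by
  have hb := G.b2_ge
  have hN1 : (1 : ℝ) ≤ N := by exact_mod_cast hN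
  unfold Gd.nQ
  rw [← mul_pow]
  have : 2 * (G.b2 : ℝ) * N + 1 ≤ (2 * (G.b2 : ℝ) + 1) * N := by nlinarith
  have h0 : 0 ≤ 2 * (G.b2 : ℝ) * N + 1 := by positivity
  gcongr

theorem Gd.nQ_ge_N (G : Gd d c F) {N : ℕ} (hN : 1 ≤ N) : (N : ℝ) ≤ G.nQ N := by
  have hb := G.b2_ge
  have hd := G.hd
  have hN1 : (1 : ℝ) ≤ N := by exact_mod_cast hN
  unfold Gd.nQ
  have h1 : (N : ℝ) ≤ 2 * (G.b2 : ℝ) * N + 1 := by
    nlinarith [mul_le_mul_of_nonneg_right hb (by linarith : (0 : ℝ) ≤ N)]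
  exact h1.trans (le_self_pow₀ (by linarith) (by omega))

/-- the absorbers against powers of the number of sites -/
theorem Gd.exists_gu (G : Gd d c F) (C' κ : ℕ) : ∃ N1 : ℕ, 1 ≤ N1 ∧ ∀ N : ℕ, N1 ≤ N →
    6 * (G.gu N * (G.nQ N) ^ C') ≤ G.r ∧
    (G.gu N * (G.nQ N) ^ C' / G.r) ^ 3 ≤ ((N : ℝ) ^ κ)⁻¹ := by
  have hr := G.r_pos
  have hC := G.C_pos
  have hz := G.z_pos
  have hb := G.b2_ge
  have hK : (0 : ℝ) < KK d F := by exact_mod_cast KK_pos d F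
  set B : ℝ := (2 * (G.b2 : ℝ) + 1) ^ d with hB
  have hB0 : 0 < B := by positivity
  obtain ⟨N1, h1, h2⟩ := poly_geom (A := 12 * KK d F * G.C / G.r * B ^ C') (q := G.z ^ 2)
    (by positivity) (pow_lt_one₀ hz.le G.z_lt (by norm_num)) (d + 2 + d * C' + κ) (ε := G.r / 6)
    (by positivity)
  refine ⟨N1, h1, fun N hN => ?_⟩
  have hN0 : 1 ≤ N := h1.trans hN
  have hN1 : (1 : ℝ) ≤ N := by exact_mod_cast hN0
  have hNk : (1 : ℝ) ≤ (N : ℝ) ^ κ := one_le_pow₀ hN1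
  have h3 := h2 N hN
  have hnQ0 := G.nQ_nonneg N
  have hgu := G.gu_nonneg N
  have h4 : G.gu N * (G.nQ N) ^ C' * (N : ℝ) ^ κ ≤ G.r / 6 := by
    refine le_trans ?_ h3
    calc G.gu N * (G.nQ N) ^ C' * (N : ℝ) ^ κ
        ≤ (12 * KK d F * G.C / G.r * ((N : ℝ) ^ (d + 2) * (G.z ^ 2) ^ N)) *
          (B * (N : ℝ) ^ d) ^ C' * (N : ℝ) ^ κ := by
          have e1 := G.gu_le hN0
          have e2 := G.nQ_le hN0
          gcongr
      _ = 12 * KK d F * G.C / G.r * B ^ C' *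
          ((N : ℝ) ^ (d + 2 + d * C' + κ) * (G.z ^ 2) ^ N) := by
          rw [mul_pow, ← pow_mul (N : ℝ) d C', pow_add (N : ℝ) (d + 2 + d * C') κ,
            pow_add (N : ℝ) (d + 2) (d * C')]
          ring
  have h5 : 0 ≤ G.gu N * (G.nQ N) ^ C' := by positivity
  have h6 : G.gu N * (G.nQ N) ^ C' ≤ G.r / 6 := by
    refine le_trans ?_ h4
    nlinarith
  refine ⟨by linarith, ?_⟩
  set x := G.gu N * (G.nQ N) ^ C' / G.r with hx
  have hx0 : 0 ≤ x := by positivity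
  have hx1 : x ≤ 1 := by
    rw [hx, div_le_one hr]; linarith
  have hx2 : x ≤ ((N : ℝ) ^ κ)⁻¹ := by
    rw [← one_div, le_div_iff₀ (by positivity), hx, div_mul_eq_mul_div, div_le_one hr]
    linarith
  calc x ^ 3 ≤ x ^ 1 := pow_le_pow_of_le_one hx0 hx1 (by norm_num)
    _ = x := pow_one x
    _ ≤ _ := hx2

/-- the probability of a complete block against powers -/
theorem Gd.exists_PP (hc : 0 < c) (G : Gd d c F) {Cw : ℝ} (hCw : 1 ≤ Cw) (κ : ℕ) :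
    ∃ N1 : ℕ, 1 ≤ N1 ∧ ∀ N : ℕ, N1 ≤ N → G.nQ N * G.PP Cw N ≤ ((N : ℝ) ^ κ)⁻¹ := by
  have hd := G.hd
  have hb := G.b2_ge
  set B : ℝ := (2 * (G.b2 : ℝ) + 1) ^ d with hB
  have hB0 : 0 ≤ B := by positivity
  have hq : Real.exp (-1) < 1 := by
    rw [← Real.exp_zero]
    exact Real.exp_lt_exp.mpr (by norm_num)
  obtain ⟨N1, h1, h2⟩ := poly_geom (A := B) (q := Real.exp (-1)) (Real.exp_pos _).le hq (d + κ)
    (ε := 1) one_pos
  obtain ⟨N2, hN2⟩ := exists_nat_ge (-Real.log c + 1)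
  refine ⟨max N1 (N2 + 2), h1.trans (le_max_left _ _), fun N hN => ?_⟩
  have hNN2 : (N2 : ℝ) + 2 ≤ N := by exact_mod_cast (le_max_right _ _).trans hN
  have hN0 : 1 ≤ N := (h1.trans (le_max_left _ _)).trans hN
  have hN1 : (1 : ℝ) ≤ N := by exact_mod_cast hN0
  have h3 := h2 N ((le_max_left _ _).trans hN)
  -- one factor
  have h4 : Real.exp (-(Cw * (N : ℝ) ^ (d + 1))) / c ≤ Real.exp (-1) := by
    rw [div_le_iff₀ hc]
    have h5 : Real.exp (-1) * c = Real.exp (-1 + Real.log c) := by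
      rw [Real.exp_add, Real.exp_log hc]
    rw [h5]
    apply Real.exp_le_exp.mpr
    have h6 : (N : ℝ) ≤ (N : ℝ) ^ (d + 1) := le_self_pow₀ hN1 (by omega)
    have h7 : (N : ℝ) ^ (d + 1) ≤ Cw * (N : ℝ) ^ (d + 1) := by nlinarith
    linarith
  have h8 : G.PP Cw N ≤ Real.exp (-1) ^ N := by
    unfold Gd.PP
    have h9 : 0 ≤ Real.exp (-(Cw * (N : ℝ) ^ (d + 1))) / c := by positivity
    calc (Real.exp (-(Cw * (N : ℝ) ^ (d + 1))) / c) ^ (N ^ d) ≤ Real.exp (-1) ^ (N ^ d) := by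
          gcongr
      _ ≤ Real.exp (-1) ^ N := by
          apply pow_le_pow_of_le_one (Real.exp_pos _).le hq.le
          exact Nat.le_self_pow (by omega) N
  rw [← one_div, le_div_iff₀ (by positivity)]
  have hnQ := G.nQ_le hN0
  have hnQ0 := G.nQ_nonneg N
  have hPP0 := G.PP_nonneg (Cw := Cw) hc N
  calc G.nQ N * G.PP Cw N * (N : ℝ) ^ κ ≤ (B * (N : ℝ) ^ d) * Real.exp (-1) ^ N * (N : ℝ) ^ κ := by
        gcongr
    _ = B * ((N : ℝ) ^ (d + κ) * Real.exp (-1) ^ N) := by rw [pow_add]; ring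
    _ ≤ 1 := h3

end num

namespace Par

variable {d : ℕ} {c : ℝ} {F : Type} [Fintype F] [DecidableEq F] [Thin F] {ι : Type*} [Fintype ι]
  [DecidableEq ι] (P : Par d c F ι)

theorem num_eq {q : P.Blk} {m : ℕ} (hq : P.sys.cls q = m) : P.num q = P.N0 + m := by
  unfold num
  have : P.cls q = m := hq
  rw [this]

/-- the hypotheses of the bridge -/
theorem bhyp (hN : 2 ≤ P.N0) (hS : WO.Good P.sys P.A) (m : ℕ) {a : ℝ} (ha : 0 < a)
    (hsm : P.G.SmE (P.N0 + m) a) :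
    LB.BHyp P.sys P.A P.xi m a (P.G.nQ (P.N0 + m)) (P.G.nn (P.N0 + m)) where
  sepw := fun q _ => P.sepw' hN q
  phc := by
    intro q V hq hb l hl
    have hn := P.num_eq hq
    have h1 := P.phc_one hS q hb ha (by rw [hn]; exact hsm) hl
    rw [hq] at h1
    exact h1
  zec := by
    intro q V hq hb
    have hn := P.num_eq hq
    exact P.zec_le hS q hb ha (by rw [hn]; exact hsm)
  diam := by
    intro q hq x hx
    rw [← P.num_eq hq]
    exact P.diam' q hx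
  dm_nonneg := P.G.nQ_nonneg _
  two_le := by
    have h1 : (49 : ℝ) ≤ P.G.nQ (P.N0 + m) := P.G.nQ_ge49 (P.one_le.trans (Nat.le_add_right _ _))
    rw [← P.G.nn_cast] at h1
    have h2 : (2 : ℝ) ≤ ((P.G.nn (P.N0 + m) : ℕ) : ℝ) := by linarith
    exact_mod_cast h2
  card := by
    intro q hq
    have h1 := P.card_L_le q
    rw [P.num_eq hq, ← P.G.nn_cast] at h1
    exact_mod_cast h1

/-- the sum of the probabilities of the complete blocks of one class -/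
theorem sum_prob (m : ℕ) :
    ∑ q : P.Blk, (if P.sys.cls q = m then P.sys.mu.real {V | P.sys.comp q V} else 0) ≤
      P.G.PP P.Cw (P.N0 + m) * Fintype.card ι := by
  have hc := P.c_pos
  have h1 : ∀ q : P.Blk, (if P.sys.cls q = m then P.sys.mu.real {V | P.sys.comp q V} else 0) ≤
      if P.sys.cls q = m then P.G.PP P.Cw (P.N0 + m) else 0 := by
    intro q
    split_ifs with h
    · have := P.prob_le q
      rwa [P.num_eq h] at this
    · exact le_refl _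
  refine (Finset.sum_le_sum fun q _ => h1 q).trans ?_
  rw [← Finset.sum_filter, Finset.sum_const, nsmul_eq_mul]
  have h2 := P.mult_le m
  rw [one_mul] at h2
  have h3 := P.G.PP_nonneg (Cw := P.Cw) hc (P.N0 + m)
  calc _ ≤ (Fintype.card ι : ℝ) * P.G.PP P.Cw (P.N0 + m) := mul_le_mul_of_nonneg_right h2 h3
    _ = _ := mul_comm _ _

end Par

/-- THE THINNING ERRORS of the instance -/
theorem exists_ers {d : ℕ} {c : ℝ} {F : Type} [Fintype F] [DecidableEq F] [Thin F]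
    (hc : 0 < c) (G : Gd d c F) {Cw : ℝ} (hCw : 1 ≤ Cw) (κ : ℕ) :
    ∃ (N1 : ℕ) (K : ℝ), 2 ≤ N1 ∧ 0 < K ∧
      ∀ (ι : Type) [Fintype ι] [DecidableEq ι] (P : Par d c F ι),
      P.G = G → P.Cw = Cw → N1 ≤ P.N0 → WO.Good P.sys P.A →
      ∀ (m : ℕ) (t a : ℝ), 0 < a → a ≤ Real.exp (-(((P.N0 + m : ℕ) : ℝ) ^ pe d)) → 0 ≤ t →
        t ≤ 1 →
        P.sys.Ex P.A (P.sys.pim m t) (P.sys.ers P.A P.xi m a) ≤
          K * (((P.N0 + m : ℕ) : ℝ) ^ κ)⁻¹ * (P.sys.Dw P.A P.xi m t a + Fintype.card ι) := by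
  obtain ⟨C', hC'⟩ := LB.bridge κ
  obtain ⟨N1, h1, H1⟩ := G.exists_SmE hc
  obtain ⟨N2, h2, H2⟩ := G.exists_gu C' κ
  obtain ⟨N3, h3, H3⟩ := G.exists_PP hc hCw κ
  refine ⟨max (max N1 (max N2 N3)) 2, 563200 + 30240 + 8800, le_max_right _ _, by norm_num, ?_⟩
  intro ι _ _ P hG hCw' hN0' hgood m t a ha haN ht0 ht1
  subst hG hCw'
  have hN02 : 2 ≤ P.N0 := (le_max_right _ _).trans hN0'
  have hN0 := (le_max_left _ _).trans hN0'
  set N := P.N0 + m with hN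
  have hNN0 : P.N0 ≤ N := Nat.le_add_right _ _
  have hN1 : N1 ≤ N := ((le_max_left _ _).trans hN0).trans hNN0
  have hN2 : N2 ≤ N := (((le_max_left _ _).trans (le_max_right _ _)).trans hN0).trans hNN0
  have hN3 : N3 ≤ N := (((le_max_right _ _).trans (le_max_right _ _)).trans hN0).trans hNN0
  have hNpos : 1 ≤ N := h1.trans hN1
  have hNr : (1 : ℝ) ≤ N := by exact_mod_cast hNpos
  have hsm := H1 N hN1 a ha haN
  obtain ⟨g1, g2⟩ := H2 N hN2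
  have g3 := H3 N hN3
  have hB := P.bhyp hN02 hgood m ha hsm
  have hgu : ∀ q V, P.sys.cls q = m → P.sys.comp q V → P.sys.gg P.A q V ≤ P.G.gu N := by
    intro q V hq hb
    have := P.gg_le hb
    rw [P.num_eq hq] at this
    exact this
  have hD : 0 ≤ P.sys.Dw P.A P.xi m t a := P.sys.Dw_nonneg hgood P.xi m ht0 ht1 ha
  have key := hC' hgood hB ha (P.G.gu_nonneg N) hgu (by
    rw [P.G.nn_cast]; exact g1) ht0 ht1
  rw [P.G.nn_cast] at key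
  refine key.trans ?_
  have hnQ := P.G.nQ_nonneg N
  have e1 : ((P.G.nQ N) ^ κ)⁻¹ ≤ ((N : ℝ) ^ κ)⁻¹ := by
    have := P.G.nQ_ge_N hNpos
    have h0 : 0 < (N : ℝ) ^ κ := by positivity
    exact inv_anti₀ h0 (by gcongr)
  have e2 := P.sum_prob m
  have e3 : P.G.nQ N * ∑ q : P.Blk, (if P.sys.cls q = m then P.sys.mu.real {V | P.sys.comp q V}
      else 0) ≤ ((N : ℝ) ^ κ)⁻¹ * Fintype.card ι := by
    calc _ ≤ P.G.nQ N * (P.G.PP P.Cw N * Fintype.card ι) := mul_le_mul_of_nonneg_left e2 hnQ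
      _ = (P.G.nQ N * P.G.PP P.Cw N) * Fintype.card ι := by ring
      _ ≤ _ := by gcongr
  have hNk : 0 ≤ ((N : ℝ) ^ κ)⁻¹ := by positivity
  have hcard : (0 : ℝ) ≤ Fintype.card ι := Nat.cast_nonneg _
  have e4 : (P.G.gu N * (P.G.nQ N) ^ C' / P.sys.r) ^ 3 ≤ ((N : ℝ) ^ κ)⁻¹ := g2
  calc (563200 * ((P.G.nQ N) ^ κ)⁻¹ + 30240 * (P.G.gu N * (P.G.nQ N) ^ C' / P.sys.r) ^ 3) *
        P.sys.Dw P.A P.xi m t a + 8800 * P.G.nQ N * ∑ q : P.Blk,
          (if P.sys.cls q = m then P.sys.mu.real {V | P.sys.comp q V} else 0)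
      ≤ (563200 * ((N : ℝ) ^ κ)⁻¹ + 30240 * ((N : ℝ) ^ κ)⁻¹) * P.sys.Dw P.A P.xi m t a +
        8800 * (((N : ℝ) ^ κ)⁻¹ * Fintype.card ι) := by
        rw [mul_assoc 8800]
        gcongr
    _ ≤ (563200 + 30240 + 8800) * ((N : ℝ) ^ κ)⁻¹ *
        (P.sys.Dw P.A P.xi m t a + Fintype.card ι) := by
        nlinarith [mul_nonneg hNk hD, mul_nonneg hNk hcard]

end Pool.Agent.Lib.MP_562b47_mp.SR
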