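import Pool.Agent.Lib.MP_562b47_mp.SR.Emb

/-!
MP_562b47, slabs, bridge: conflicts of different blocks.  The type of a port site contains the
fibre coordinate of the centre, so that two blocks of the same class and the same long coordinates of
the centres are in conflict at every port site.
-/

open Finset

set_option linter.unusedSectionVars false

namespace Pool.Agent.Lib.MP_562b47_mp.SR

open Pool.Agent.Lib.MP_562b47_mp.SX

variable {d : ℕ} {F : Type} [Fintype F] [DecidableEq F] [Thin F]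

/-- number of types of port sites -/
def KK (d : ℕ) (F : Type) [Fintype F] : ℕ := (2 ^ d + 1) * Fintype.card F + 1

theorem KK_pos (d : ℕ) (F : Type) [Fintype F] : 0 < KK d F := Nat.succ_pos _

/-- the type of a port site of a block whose centre has fibre coordinate `o` -/
noncomputable def ty (m : ℤ) (o : F) (x : St d F) : ℕ :=
  RD.ty m x.1 + (2 ^ d + 1) * (Fintype.equivFin F o).val

theorem ty_lt (m : ℤ) (o : F) (x : St d F) : ty m o x < KK d F := by
  unfold ty KK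
  have h1 := RD.ty_lt m x.1
  have h2 := (Fintype.equivFin F o).2
  have h3 : (2 ^ d + 1) * ((Fintype.equivFin F o).val + 1) ≤ (2 ^ d + 1) * Fintype.card F :=
    Nat.mul_le_mul_left _ h2
  rw [Nat.mul_add, Nat.mul_one] at h3
  omega

theorem ty_eq {m m' : ℤ} {o o' : F} {x x' : St d F} (h : ty m o x = ty m' o' x') :
    RD.ty m x.1 = RD.ty m' x'.1 ∧ o = o' := by
  unfold ty at h
  have h1 := RD.ty_lt m x.1
  have h2 := RD.ty_lt m' x'.1
  have e1 : (RD.ty m x.1 + (2 ^ d + 1) * (Fintype.equivFin F o).val) % (2 ^ d + 1) =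
      RD.ty m x.1 := by
    rw [Nat.add_mul_mod_self_left, Nat.mod_eq_of_lt h1]
  have e2 : (RD.ty m' x'.1 + (2 ^ d + 1) * (Fintype.equivFin F o').val) % (2 ^ d + 1) =
      RD.ty m' x'.1 := by
    rw [Nat.add_mul_mod_self_left, Nat.mod_eq_of_lt h2]
  have e3 : RD.ty m x.1 = RD.ty m' x'.1 := by rw [← e1, ← e2, h]
  refine ⟨e3, ?_⟩
  have e4 : (2 ^ d + 1) * (Fintype.equivFin F o).val = (2 ^ d + 1) * (Fintype.equivFin F o').val := by
    omega
  have e5 := Nat.eq_of_mul_eq_mul_left (Nat.succ_pos _) e4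
  exact (Fintype.equivFin F).injective (Fin.ext e5)

/-- the site `y` cannot be in its windows for both blocks -/
def conf (m : ℤ) (s : St d F) (m' : ℤ) (s' y : St d F) : Prop :=
  (rel s y ∈ SX.prt d F m ∧ rel s' y ∈ SX.inn d m' s'.2) ∨
    (rel s y ∈ SX.inn d m s.2 ∧ rel s' y ∈ SX.prt d F m') ∨
    (rel s y ∈ SX.prt d F m ∧ rel s' y ∈ SX.prt d F m' ∧
      (m ≠ m' ∨ ty m s.2 (rel s y) ≠ ty m' s'.2 (rel s' y)))

/-- conflicts in the long coordinates give conflicts -/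
theorem conf_of {m m' : ℤ} {s s' : St d F} {y : Fin d → ℤ} (g : F)
    (h : RD.conf m s.1 m' s'.1 y) : conf m s m' s' (y, g) := by
  have key : ∀ {m : ℤ} {s : St d F}, RD.rel s.1 y ∈ GD.inn d m →
      rel s (y, g) ∈ SX.inn d m s.2 := by
    intro m s h
    rw [mem_inn1]
    obtain ⟨h1, h2⟩ := RD.mem_inn.mp h
    exact ⟨fun h3 => h1 (congrArg Prod.fst h3), h2⟩
  rcases h with ⟨h1, h2⟩ | ⟨h1, h2⟩ | ⟨h1, h2, h3⟩
  · exact Or.inl ⟨mem_prt1.mpr h1, key h2⟩
  · exact Or.inr (Or.inl ⟨key h1, mem_prt1.mpr h2⟩)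
  · refine Or.inr (Or.inr ⟨mem_prt1.mpr h1, mem_prt1.mpr h2, ?_⟩)
    rcases h3 with h3 | h3
    · exact Or.inl h3
    · exact Or.inr fun h4 => h3 (ty_eq h4).1

theorem main_conf (hd : 2 ≤ d) {m m' : ℤ} (hm : 3 ≤ m) (hm' : 3 ≤ m') {s s' : St d F}
    (hne : ¬ (m = m' ∧ s = s')) {x e : St d F} (hx : rel s x ∈ bq d F m)
    (hx' : rel s' x ∈ bq d F m') (hxe : x ≠ e) : ∃ y, y ≠ e ∧ conf m s m' s' y := by
  have hx1 : RD.rel s.1 x.1 ∈ RD.bq d m := mem_bq.mp hx
  have hx1' : RD.rel s'.1 x.1 ∈ RD.bq d m' := mem_bq.mp hx'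
  by_cases h1 : m = m' ∧ s.1 = s'.1
  · obtain ⟨hmm, hs1⟩ := h1
    have hs2 : s.2 ≠ s'.2 := fun h => hne ⟨hmm, Prod.ext hs1 h⟩
    subst hmm
    -- two different port sites
    have hp : ∀ t : ℤ, (t = m ∨ t = -m) →
        conf m s m s' ((fun j => t + s.1 j - 1, x.2) : St d F) := by
      intro t ht
      have hr : RD.rel s.1 (fun j => t + s.1 j - 1) = fun _ => t := by
        funext j
        simp only [RD.rel]
        ring
      have hprt : (fun _ : Fin d => t) ∈ GD.prt d m := by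
        refine RD.prt_of (j := ⟨0, by omega⟩) ?_ ht
        rw [RD.mem_bq]
        intro j
        omega
      refine Or.inr (Or.inr ⟨?_, ?_, ?_⟩)
      · rw [mem_prt1]
        show RD.rel s.1 (fun j => t + s.1 j - 1) ∈ _
        rw [hr]
        exact hprt
      · rw [mem_prt1]
        show RD.rel s'.1 (fun j => t + s.1 j - 1) ∈ _
        rw [← hs1, hr]
        exact hprt
      · exact Or.inr fun h => hs2 (ty_eq h).2
    by_cases he : ((fun j => m + s.1 j - 1, x.2) : St d F) = e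
    · refine ⟨_, ?_, hp (-m) (Or.inr rfl)⟩
      rw [← he]
      intro h2
      have h3 : (fun j => -m + s.1 j - 1) = fun j => m + s.1 j - 1 := congrArg Prod.fst h2
      have h4 : -m + s.1 ⟨0, by omega⟩ - 1 = m + s.1 ⟨0, by omega⟩ - 1 :=
        congrFun h3 ⟨0, by omega⟩
      omega
    · exact ⟨_, he, hp m (Or.inl rfl)⟩
  · by_cases h2 : x.1 = e.1
    · have h3 : x.2 ≠ e.2 := fun h => hxe (Prod.ext h2 h)
      obtain ⟨y, -, hy2⟩ := RD.main_conf hd hm hm' h1 hx1 hx1'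
        (e := GD.sh x.1 ⟨0, by omega⟩ 1) (Ne.symm (RD.sh_ne (by norm_num)))
      exact ⟨(y, x.2), fun h => h3 (by rw [← h]), conf_of x.2 hy2⟩
    · obtain ⟨y, hy1, hy2⟩ := RD.main_conf hd hm hm' h1 hx1 hx1' (e := e.1) h2
      exact ⟨(y, x.2), fun h => hy1 (by rw [← h]), conf_of x.2 hy2⟩

end Pool.Agent.Lib.MP_562b47_mp.SR
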