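import Pool.Agent.Lib.MP_562b47_mp.SR.Conf

/-!
MP_562b47, slabs, bridge: the instance of `WO.Sys` given by the gadgets of `SX.gadget`.
-/

open Finset Matrix

set_option linter.unusedSectionVars false

namespace Pool.Agent.Lib.MP_562b47_mp.SR

open Pool.Agent.Lib.MP_562b47_mp.SX Pool.Agent.Lib.MP_562b47_mp.WO
open Pool.Agent.Lib.MP_562b47_mp.RD (lw jlo jhi lw_pos jhi_sub jlo_ge' jhi_le' jlo_lt_jhi J_disj Icc_disj)

/-- the constants and the potentials of the gadget: chosen before the energy, the size of the box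
and the width of the windows -/
structure Gd (d : ℕ) (c : ℝ) (F : Type) [Fintype F] [DecidableEq F] [Thin F] where
  hd : 2 ≤ d
  ne : Nonempty F
  b : ℤ
  z : ℝ
  v : ℝ
  ρ : ℝ
  r : ℝ
  C : ℝ
  Vs : ℕ → F → St d F → ℝ
  hb : 3 ≤ b
  z_pos : 0 < z
  z_lt : z < 1
  ρ_pos : 0 < ρ
  r_pos : 0 < r
  C_ge : 1 ≤ C
  C_ρ : Real.exp (-C) ≤ ρ / 2
  Vs_near : ∀ N o x, |Vs N o x - v| ≤ ρ / 2
  gad : ∀ (N : ℕ) (o : F), 1 ≤ N → ∀ W : St d F → ℝ,
    (∀ x ∈ SX.inn d (b * N) o, |W x - Vs N o x| ≤ Real.exp (-(C * (N : ℝ) ^ (d + 1)))) →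
      (KM (b * N) o W).det ≠ 0 ∧
      (∀ x y, |KI (b * N) o W x y| ≤ Real.exp (C * (N : ℝ) ^ (d + 1))) ∧
      |ze0 (b * N) o W - v| ≤ ρ ∧
      z ^ (2 * N) / C ≤ ∑ x ∈ prt d F (b * N), ph0 (b * N) o W x ^ 2 ∧
      ∑ x ∈ prt d F (b * N), ph0 (b * N) o W x ^ 2 ≤ C * (N : ℝ) ^ d * z ^ (2 * N)

variable {d : ℕ} {c : ℝ} {F : Type} [Fintype F] [DecidableEq F] [Thin F]

/-- the energies for which the gadget can be used -/
def Gd.Adm (G : Gd d c F) (kap E : ℝ) : Prop := |E - 2 * d - kap + G.v| + G.ρ + 6 * G.r ≤ c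

/-- a mode of the cross-section gives a gadget which works in a neighbourhood of `Es` -/
theorem exists_Gd (hd : 2 ≤ d) [hF : Nonempty F] {φ : F → ℝ} {lam : ℝ} (hφ : Mode F φ lam)
    {kap Es v : ℝ} (hv1 : -(2 * (d : ℝ)) < v - lam) (hv2 : v - lam < 2 * (d : ℝ))
    (hvc : |Es - 2 * d - kap + v| < c) :
    ∃ (G : Gd d c F) (δ0 : ℝ), 0 < δ0 ∧ ∀ E : ℝ, |E - Es| < δ0 → G.Adm kap E := by
  obtain ⟨b, z, ρ, r, δ0, C, hb, hz, hz1, hρ, hr, hδ, hC, hE, hg⟩ :=
    gadget (by omega) hφ hv1 hv2 hvc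
  choose Vs hVs hW using fun (N : ℕ) (o : F) => hg o (N + 1) (by omega)
  set C' : ℝ := max C (-Real.log (ρ / 2)) with hC'
  have hCC : C ≤ C' := le_max_left _ _
  have hC'ρ : Real.exp (-C') ≤ ρ / 2 := by
    have h3 : -C' ≤ Real.log (ρ / 2) := by
      have := le_max_right C (-Real.log (ρ / 2))
      linarith
    calc Real.exp (-C') ≤ Real.exp (Real.log (ρ / 2)) := Real.exp_le_exp.mpr h3
      _ = ρ / 2 := Real.exp_log (by linarith)
  refine ⟨⟨hd, hF, b, z, v, ρ, r, C', fun N o => Vs (N - 1) o, hb, hz, hz1, hρ, hr,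
    hC.trans hCC, hC'ρ, fun N o x => hVs (N - 1) o x, ?_⟩, δ0, hδ, hE⟩
  intro N o hN W hWN
  obtain ⟨k, rfl⟩ : ∃ k, N = k + 1 := ⟨N - 1, by omega⟩
  have h3 := hW k o W
  have hN0 : (0 : ℝ) ≤ ((k + 1 : ℕ) : ℝ) ^ (d + 1) := by positivity
  have hN1 : (0 : ℝ) ≤ ((k + 1 : ℕ) : ℝ) ^ d := by positivity
  have hCN : C * ((k + 1 : ℕ) : ℝ) ^ (d + 1) ≤ C' * ((k + 1 : ℕ) : ℝ) ^ (d + 1) :=
    mul_le_mul_of_nonneg_right hCC hN0
  obtain ⟨g1, g2, g3, g4, g5⟩ := h3 (fun x hx => (hWN x hx).trans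
    (Real.exp_le_exp.mpr (by linarith)))
  have hzN : 0 < z ^ (2 * (k + 1)) := by positivity
  refine ⟨g1, fun x y => (g2 x y).trans (Real.exp_le_exp.mpr hCN), g3, le_trans ?_ g4,
    g5.trans ?_⟩
  · exact div_le_div_of_nonneg_left hzN.le (by linarith) hCC
  · have : C * ((k + 1 : ℕ) : ℝ) ^ d ≤ C' * ((k + 1 : ℕ) : ℝ) ^ d :=
      mul_le_mul_of_nonneg_right hCC hN1
    exact mul_le_mul_of_nonneg_right this hzN.le

/-- all parameters of the instance -/
structure Par (d : ℕ) (c : ℝ) (F : Type) [Fintype F] [DecidableEq F] [Thin F]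
    (ι : Type*) where
  G : Gd d c F
  kap : ℝ
  E : ℝ
  adm : G.Adm kap E
  pos : ι → St d F
  inj : Function.Injective pos
  N0 : ℕ
  M : ℕ
  one_le : 1 ≤ N0
  Cw : ℝ
  Cw_ge : G.C ≤ Cw
  et : ℕ → ℝ
  et_pos : ∀ m, 0 < et m
  et_le : ∀ m, et m ≤ 1

variable {ι : Type*}

/-- the blocks: class `0 ≤ j ≤ M` (radius `b (N0 + j)`) and centre, such that the block is
contained in the box -/
def Par.Blk (P : Par d c F ι) : Type _ :=
  {q : Fin (P.M + 1) × ι //
    ∀ x, rel (P.pos q.2) x ∈ bq d F (P.G.b * ((P.N0 + (q.1 : ℕ) : ℕ) : ℤ)) → x ∈ Set.range P.pos}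

noncomputable instance [Fintype ι] (P : Par d c F ι) : Fintype P.Blk := by
  classical
  unfold Par.Blk
  infer_instance

instance [DecidableEq ι] (P : Par d c F ι) : DecidableEq P.Blk := by
  unfold Par.Blk
  infer_instance

namespace Par

/-- the class -/
def cls (P : Par d c F ι) (q : P.Blk) : ℕ := (q.1.1 : ℕ)

/-- the size parameter `N = N0 + class` -/
def num (P : Par d c F ι) (q : P.Blk) : ℕ := P.N0 + P.cls q

/-- the centre -/
def ctr (P : Par d c F ι) (q : P.Blk) : ι := q.1.2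

/-- the radius -/
def rad (P : Par d c F ι) (q : P.Blk) : ℤ := P.G.b * ((P.num q : ℕ) : ℤ)

/-- relative coordinates of a site -/
def co (P : Par d c F ι) (q : P.Blk) (x : ι) : St d F := rel (P.pos (P.ctr q)) (P.pos x)

/-- the fibre coordinate of the centre -/
def oo (P : Par d c F ι) (q : P.Blk) : F := (P.pos (P.ctr q)).2

theorem num_ge (P : Par d c F ι) (q : P.Blk) : P.N0 ≤ P.num q := Nat.le_add_right _ _

theorem one_le_num (P : Par d c F ι) (q : P.Blk) : 1 ≤ P.num q := P.one_le.trans (P.num_ge q)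

theorem cls_le (P : Par d c F ι) (q : P.Blk) : P.cls q ≤ P.M := by
  have := q.1.1.2
  unfold cls
  omega

theorem ran (P : Par d c F ι) (q : P.Blk) :
    ∀ x, rel (P.pos (P.ctr q)) x ∈ bq d F (P.rad q) → x ∈ Set.range P.pos := q.2

theorem rad_ge (P : Par d c F ι) (q : P.Blk) : 3 ≤ P.rad q := by
  have h1 : (1 : ℤ) ≤ P.num q := by exact_mod_cast P.one_le_num q
  have h2 := P.G.hb
  unfold rad
  nlinarith

theorem blk_ext (P : Par d c F ι) {q q' : P.Blk} (h1 : P.cls q = P.cls q')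
    (h2 : P.ctr q = P.ctr q') : q = q' :=
  Subtype.ext (Prod.ext (Fin.ext h1) h2)

theorem rad_eq (P : Par d c F ι) {q q' : P.Blk} (h : P.rad q = P.rad q') : P.cls q = P.cls q' := by
  unfold rad num at h
  have h1 := P.G.hb
  have h2 : ((P.N0 + P.cls q : ℕ) : ℤ) = ((P.N0 + P.cls q' : ℕ) : ℤ) :=
    mul_left_cancel₀ (by omega) h
  have h3 : P.N0 + P.cls q = P.N0 + P.cls q' := by exact_mod_cast h2
  omega

theorem ne_of (P : Par d c F ι) {q q' : P.Blk} (hne : q ≠ q') :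
    ¬ (P.rad q = P.rad q' ∧ P.pos (P.ctr q) = P.pos (P.ctr q')) :=
  fun h => hne (P.blk_ext (P.rad_eq h.1) (P.inj h.2))

/-- half length of the inner windows -/
noncomputable def de (P : Par d c F ι) (N : ℕ) : ℝ := Real.exp (-(P.Cw * (N : ℝ) ^ (d + 1)))

theorem de_pos (P : Par d c F ι) (N : ℕ) : 0 < P.de N := Real.exp_pos _

theorem de_le (P : Par d c F ι) (N : ℕ) : P.de N ≤ Real.exp (-(P.G.C * (N : ℝ) ^ (d + 1))) := by
  unfold de
  apply Real.exp_le_exp.mpr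
  have h1 : (0 : ℝ) ≤ (N : ℝ) ^ (d + 1) := by positivity
  nlinarith [mul_le_mul_of_nonneg_right P.Cw_ge h1]

theorem de_le_ρ (P : Par d c F ι) {N : ℕ} (hN : 1 ≤ N) : P.de N ≤ P.G.ρ / 2 := by
  refine (P.de_le N).trans (le_trans ?_ P.G.C_ρ)
  apply Real.exp_le_exp.mpr
  have h1 : (1 : ℝ) ≤ N := by exact_mod_cast hN
  have h2 : (1 : ℝ) ≤ (N : ℝ) ^ (d + 1) := one_le_pow₀ h1
  have := P.G.C_ge
  nlinarith

/-- left endpoints of the windows -/
noncomputable def lo (P : Par d c F ι) (q : P.Blk) (x : ι) : ℝ :=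
  if P.co q x ∈ prt d F (P.rad q) then
    jlo (KK d F) c P.G.r (P.num q) (ty (P.rad q) (P.oo q) (P.co q x))
  else if P.co q x ∈ SX.inn d (P.rad q) (P.oo q) then
    P.G.Vs (P.num q) (P.oo q) (P.co q x) - 2 * d - P.kap + P.E - P.de (P.num q)
  else -c

/-- right endpoints of the windows -/
noncomputable def hi (P : Par d c F ι) (q : P.Blk) (x : ι) : ℝ :=
  if P.co q x ∈ prt d F (P.rad q) then
    jhi (KK d F) c P.G.r (P.num q) (ty (P.rad q) (P.oo q) (P.co q x))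
  else if P.co q x ∈ SX.inn d (P.rad q) (P.oo q) then
    P.G.Vs (P.num q) (P.oo q) (P.co q x) - 2 * d - P.kap + P.E + P.de (P.num q)
  else c

theorem lo_prt (P : Par d c F ι) {q : P.Blk} {x : ι} (h : P.co q x ∈ prt d F (P.rad q)) :
    P.lo q x = jlo (KK d F) c P.G.r (P.num q) (ty (P.rad q) (P.oo q) (P.co q x)) := if_pos h

theorem hi_prt (P : Par d c F ι) {q : P.Blk} {x : ι} (h : P.co q x ∈ prt d F (P.rad q)) :
    P.hi q x = jhi (KK d F) c P.G.r (P.num q) (ty (P.rad q) (P.oo q) (P.co q x)) := if_pos h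

theorem lo_inn (P : Par d c F ι) {q : P.Blk} {x : ι} (h : P.co q x ∈ SX.inn d (P.rad q) (P.oo q)) :
    P.lo q x = P.G.Vs (P.num q) (P.oo q) (P.co q x) - 2 * d - P.kap + P.E - P.de (P.num q) := by
  unfold lo
  rw [if_neg (prt_inn h), if_pos h]

theorem hi_inn (P : Par d c F ι) {q : P.Blk} {x : ι} (h : P.co q x ∈ SX.inn d (P.rad q) (P.oo q)) :
    P.hi q x = P.G.Vs (P.num q) (P.oo q) (P.co q x) - 2 * d - P.kap + P.E + P.de (P.num q) := by
  unfold hi
  rw [if_neg (prt_inn h), if_pos h]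

/-- the inner windows are contained in `[-c + 6r, c - 6r]` -/
theorem inn_bd (P : Par d c F ι) {q : P.Blk} {x : ι} (h : P.co q x ∈ SX.inn d (P.rad q) (P.oo q)) :
    -c + 6 * P.G.r ≤ P.lo q x ∧ P.hi q x ≤ c - 6 * P.G.r := by
  rw [P.lo_inn h, P.hi_inn h]
  have h1 := P.G.Vs_near (P.num q) (P.oo q) (P.co q x)
  have h2 := P.de_le_ρ (P.one_le_num q)
  have h3 := P.adm
  unfold Gd.Adm at h3
  rw [abs_le] at h1
  have h4 := abs_le.mp (le_of_eq (rfl : |P.E - 2 * d - P.kap + P.G.v| = |P.E - 2 * d - P.kap + P.G.v|))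
  constructor <;> linarith

theorem prt_bd (P : Par d c F ι) {q : P.Blk} {x : ι} (h : P.co q x ∈ prt d F (P.rad q)) :
    c - 4 * P.G.r ≤ P.lo q x - lw (KK d F) P.G.r (P.num q) ∧
      P.hi q x + lw (KK d F) P.G.r (P.num q) ≤ c - P.G.r := by
  rw [P.lo_prt h, P.hi_prt h]
  exact ⟨jlo_ge' (KK_pos d F) P.G.r_pos _ _, jhi_le' (KK_pos d F) P.G.r_pos _ (ty_lt _ _ _)⟩

theorem c_ge (P : Par d c F ι) : 6 * P.G.r + P.G.ρ ≤ c := by
  have h3 := P.adm
  unfold Gd.Adm at h3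
  linarith [abs_nonneg (P.E - 2 * d - P.kap + P.G.v)]

theorem c_pos (P : Par d c F ι) : 0 < c := by
  have := P.c_ge
  linarith [P.G.ρ_pos, P.G.r_pos]

theorem lo_ge (P : Par d c F ι) (q : P.Blk) (x : ι) : -c ≤ P.lo q x := by
  by_cases h : P.co q x ∈ prt d F (P.rad q)
  · have h1 := (P.prt_bd h).1
    have h2 := lw_pos (KK_pos d F) P.G.r_pos (P.num q)
    linarith [P.c_ge, P.G.r_pos, P.G.ρ_pos]
  · by_cases h' : P.co q x ∈ SX.inn d (P.rad q) (P.oo q)
    · linarith [(P.inn_bd h').1, P.G.r_pos]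
    · unfold lo
      rw [if_neg h, if_neg h']

theorem hi_le (P : Par d c F ι) (q : P.Blk) (x : ι) : P.hi q x ≤ c := by
  by_cases h : P.co q x ∈ prt d F (P.rad q)
  · have h1 := (P.prt_bd h).2
    have h2 := lw_pos (KK_pos d F) P.G.r_pos (P.num q)
    linarith [P.c_ge, P.G.r_pos, P.G.ρ_pos]
  · by_cases h' : P.co q x ∈ SX.inn d (P.rad q) (P.oo q)
    · linarith [(P.inn_bd h').2, P.G.r_pos]
    · unfold hi
      rw [if_neg h, if_neg h']

theorem lo_lt (P : Par d c F ι) (q : P.Blk) (x : ι) : P.lo q x < P.hi q x := by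
  by_cases h : P.co q x ∈ prt d F (P.rad q)
  · rw [P.lo_prt h, P.hi_prt h]
    exact jlo_lt_jhi (KK_pos d F) P.G.r_pos _ _
  · by_cases h' : P.co q x ∈ SX.inn d (P.rad q) (P.oo q)
    · rw [P.lo_inn h', P.hi_inn h']
      linarith [P.de_pos (P.num q)]
    · unfold lo hi
      rw [if_neg h, if_neg h', if_neg h, if_neg h']
      linarith [P.c_pos]

theorem co_ctr (P : Par d c F ι) (q : P.Blk) : P.co q (P.ctr q) = ce d (P.oo q) := rel_self _

theorem co_eq_one (P : Par d c F ι) {q : P.Blk} {x : ι} : P.co q x = ce d (P.oo q) ↔ x = P.ctr q := by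
  constructor
  · intro h
    have : rel (P.pos (P.ctr q)) (P.pos x) = rel (P.pos (P.ctr q)) (P.pos (P.ctr q)) := by
      rw [rel_self]; exact h
    exact P.inj (rel_inj' this)
  · rintro rfl
    exact P.co_ctr q

theorem ne_ctr (P : Par d c F ι) {q : P.Blk} {x : ι}
    (h : P.co q x ∈ prt d F (P.rad q) ∨ P.co q x ∈ SX.inn d (P.rad q) (P.oo q)) : x ≠ P.ctr q := by
  intro hx
  have h1 : P.co q x = ce d (P.oo q) := P.co_eq_one.mpr hx
  rw [h1] at h
  rcases h with h | h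
  · exact ce_not_prt (P.rad_ge q) _ h
  · exact (mem_inn.mp h).1 rfl

/-- a site cannot be in its windows for two blocks if there is a conflict -/
theorem no_conf (P : Par d c F ι) {q q' : P.Blk} {V : ι → ℝ} {x : ι}
    (h : P.co q x ∈ bq d F (P.rad q) → x ≠ P.ctr q → V x ∈ Set.Icc (P.lo q x) (P.hi q x))
    (h' : P.co q' x ∈ bq d F (P.rad q') → x ≠ P.ctr q' → V x ∈ Set.Icc (P.lo q' x) (P.hi q' x)) :
    ¬ conf (P.rad q) (P.pos (P.ctr q)) (P.rad q') (P.pos (P.ctr q')) (P.pos x) := by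
  have hp : ∀ {q : P.Blk}, (P.co q x ∈ bq d F (P.rad q) → x ≠ P.ctr q →
      V x ∈ Set.Icc (P.lo q x) (P.hi q x)) → P.co q x ∈ prt d F (P.rad q) →
      V x ∈ Set.Icc (jlo (KK d F) c P.G.r (P.num q) (ty (P.rad q) (P.oo q) (P.co q x)))
        (jhi (KK d F) c P.G.r (P.num q) (ty (P.rad q) (P.oo q) (P.co q x))) := by
    intro q h hx
    have h1 := h (mem_prt.mp hx).1 (P.ne_ctr (Or.inl hx))
    rw [P.lo_prt hx, P.hi_prt hx] at h1
    exact h1
  have hi : ∀ {q : P.Blk}, (P.co q x ∈ bq d F (P.rad q) → x ≠ P.ctr q →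
      V x ∈ Set.Icc (P.lo q x) (P.hi q x)) → P.co q x ∈ SX.inn d (P.rad q) (P.oo q) →
      V x ≤ c - 6 * P.G.r := by
    intro q h hx
    have h1 := h (inn_sub _ _ hx) (P.ne_ctr (Or.inr hx))
    exact h1.2.trans (P.inn_bd hx).2
  have hlow : ∀ N t : ℕ, c - 4 * P.G.r ≤ jlo (KK d F) c P.G.r N t := by
    intro N t
    have h1 := jlo_ge' (c := c) (KK_pos d F) P.G.r_pos N t
    have h2 := lw_pos (KK_pos d F) P.G.r_pos N
    linarith
  have hr := P.G.r_pos
  intro hc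
  rcases hc with ⟨h1, h2⟩ | ⟨h1, h2⟩ | ⟨h1, h2, h3⟩
  · have e1 := (hp h h1).1
    have e2 := hi h' h2
    have e3 := hlow (P.num q) (ty (P.rad q) (P.oo q) (P.co q x))
    linarith
  · have e1 := (hp h' h2).1
    have e2 := hi h h1
    have e3 := hlow (P.num q') (ty (P.rad q') (P.oo q') (P.co q' x))
    linarith
  · have hn : P.num q ≠ P.num q' ∨
        ty (P.rad q) (P.oo q) (P.co q x) ≠ ty (P.rad q') (P.oo q') (P.co q' x) := by
      rcases h3 with h3 | h3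
      · left
        intro h4
        apply h3
        unfold rad
        rw [h4]
      · exact Or.inr h3
    exact (Set.disjoint_left.mp (J_disj (c := c) (KK_pos d F) hr (P.num q) (P.num q') (ty_lt _ _ _)
      (ty_lt _ _ _) hn)) (hp h h1) (hp h' h2)

/-- complete except possibly at the site `s` -/
def acomp0 (P : Par d c F ι) (q : P.Blk) (s : ι) (V : ι → ℝ) : Prop :=
  ∀ x, P.co q x ∈ bq d F (P.rad q) → x ≠ P.ctr q → x ≠ s → V x ∈ Set.Icc (P.lo q x) (P.hi q x)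

/-- (g4): two different blocks which are complete except possibly at `s` have at most the site `s`
in common -/
theorem g4' (P : Par d c F ι) {q q' : P.Blk} (hne : q ≠ q') {s : ι} {V : ι → ℝ}
    (h : P.acomp0 q s V) (h' : P.acomp0 q' s V) {x : ι} (hx : P.co q x ∈ bq d F (P.rad q))
    (hx' : P.co q' x ∈ bq d F (P.rad q')) : x = s := by
  by_contra hxs
  obtain ⟨y, hy1, hy2⟩ := main_conf P.G.hd (P.rad_ge q) (P.rad_ge q') (P.ne_of hne) hx hx'
    (e := P.pos s) (fun h => hxs (P.inj h))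
  have hyq : rel (P.pos (P.ctr q)) y ∈ bq d F (P.rad q) := by
    rcases hy2 with h1 | h1 | h1
    · exact (mem_prt.mp h1.1).1
    · exact inn_sub _ _ h1.1
    · exact (mem_prt.mp h1.1).1
  obtain ⟨i, rfl⟩ := P.ran q y hyq
  have his : i ≠ s := fun h => hy1 (by rw [h])
  exact P.no_conf (fun h1 h2 => h i h1 h2 his) (fun h1 h2 => h' i h1 h2 his) hy2

/-- complete blocks are disjoint -/
theorem disj' (P : Par d c F ι) {q q' : P.Blk} (hne : q ≠ q') {V : ι → ℝ}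
    (h : ∀ x, P.co q x ∈ bq d F (P.rad q) → x ≠ P.ctr q → V x ∈ Set.Icc (P.lo q x) (P.hi q x))
    (h' : ∀ x, P.co q' x ∈ bq d F (P.rad q') → x ≠ P.ctr q' →
      V x ∈ Set.Icc (P.lo q' x) (P.hi q' x)) {x : ι} (hx : P.co q x ∈ bq d F (P.rad q))
    (hx' : P.co q' x ∈ bq d F (P.rad q')) : False := by
  have hd := P.G.hd
  obtain ⟨y, hy1, hy2⟩ := main_conf P.G.hd (P.rad_ge q) (P.rad_ge q') (P.ne_of hne) hx hx'
    (e := shf (P.pos x) ⟨0, by omega⟩ 1) (fun h =>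
      RD.sh_ne (x := (P.pos x).1) (j := ⟨0, by omega⟩) (t := 1) (by norm_num)
        (congrArg Prod.fst h).symm)
  have hyq : rel (P.pos (P.ctr q)) y ∈ bq d F (P.rad q) := by
    rcases hy2 with h1 | h1 | h1
    · exact (mem_prt.mp h1.1).1
    · exact inn_sub _ _ h1.1
    · exact (mem_prt.mp h1.1).1
  obtain ⟨i, rfl⟩ := P.ran q y hyq
  exact P.no_conf (h i) (h' i) hy2

variable [Fintype ι] [DecidableEq ι]

/-- the instance -/
noncomputable def sys (P : Par d c F ι) : WO.Sys ι P.Blk where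
  c := c
  r := P.G.r
  κ := 1 / (4 * c)
  Q := fun q => TT P.pos (P.ctr q) (bq d F (P.rad q))
  L := fun q => TT P.pos (P.ctr q) (prt d F (P.rad q))
  w := P.ctr
  cls := P.cls
  lo := P.lo
  hi := P.hi
  lw := fun j => lw (KK d F) P.G.r (P.N0 + j)
  et := P.et
  c_pos := P.c_pos
  r_pos := P.G.r_pos
  κ_pos := by have := P.c_pos; positivity
  κ_le := by
    have := P.c_pos
    rw [mul_one_div, div_self (by positivity)]
  w_mem := by
    intro q
    rw [mem_TT, rel_self]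
    exact qi_sub _ (ce_mem_qi (P.rad_ge q) _)
  w_not := by
    intro q
    rw [mem_TT, rel_self]
    exact ce_not_prt (P.rad_ge q) _
  L_sub := by
    intro q x hx
    rw [mem_TT] at hx ⊢
    exact (mem_prt.mp hx).1
  lo_lt := P.lo_lt
  lo_ge := P.lo_ge
  hi_le := P.hi_le
  lw_pos := fun j => lw_pos (KK_pos d F) P.G.r_pos _
  lw_eq := by
    intro q x hx
    rw [mem_TT] at hx
    rw [P.lo_prt hx, P.hi_prt hx, jhi_sub]
    rfl
  et_pos := P.et_pos
  et_le := P.et_le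
  disj := by
    intro q q' V hne h h'
    rw [Finset.disjoint_left]
    intro x hx hx'
    rw [mem_TT] at hx hx'
    exact P.disj' hne (fun x hx hw => h x (mem_TT.mpr hx) hw)
      (fun x hx hw => h' x (mem_TT.mpr hx) hw) hx hx'

end Par

end Pool.Agent.Lib.MP_562b47_mp.SR
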